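import Pool.Agent.H614.MM.Fin

/-!
# The minimal model conjecture for images of small degree

Let `V` be any smooth projective variety of dimension `n`, `V ⇢ Y` a rational map onto a variety `Y` of
dimension `d` in projective space, `H` the pull-back of the hyperplane class, and let `V ⇢ W` be any
dominant rational map of finite degree `r`; nothing else is assumed about `W` or about this map (it need
not be a quotient by a group, and its ramification is arbitrary).

(1) Suppose that some section of `K_V - m H` has nonzero trace to the image `W'` of `V` in `W × Y`
(this is automatic for nonzero sections if `V` is birational to `W'`), and that the degree of `W'` over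
`W` is at most `m`. Then `κ(W) ≥ d - 1`, and `κ(W) ≥ d` if `Y` is not covered by lines, or if the degree
is at most `(m + 1) / 2`. If the numerical dimension of `K_V` is at most `d`, then so is the one of
`K_W`, so that `κ(W) = ν(W) = d` in these cases.

(2) Let `V ⇢ Y` be generically finite and suppose that `Positive` holds for `r`: for each variety
between `V` and `Y`, with function field `F ≠ ℂ(Y)`, some section of `K_V - m H`, for some `m` with
`r ≤ [ℂ(V) : F] m`, has a nonzero trace to it. (If the degree of `V ⇢ Y` is a prime number, then it
suffices that `H⁰(V, K_V - m H) ≠ 0` for some `m ≥ r`.) Then `V ⇢ W` factors through `V ⇢ Y`, or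
`κ(W) ≥ n - 1`, and even `κ(W) = n` if `Y` is not covered by lines. If `Y` is uniruled (for instance
`Y = ℙⁿ`) then these are equivalent: `κ(W) < n - 1`; `κ(W) = -∞`; `K_W` is not pseudo-effective; `W` is
uniruled; `V ⇢ W` factors through `V ⇢ Y`.

So for uniruled `Y` the minimal model conjecture is true for all `W` as in (2): either `K_W` is not
pseudo-effective, and `W` is birational to a Mori fibre space by Birkar–Cascini–Hacon–McKernan, or
`κ(W) ≥ n - 1`, and `W` has a good minimal model by Lai's theorem, because the general fibre of the
Iitaka fibration has dimension at most `1`. In (1), `W` has a good minimal model if `d ≥ n - 2`, or if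
`κ(W) ≥ d`, and `d ≥ n - 3` or `ν(V) ≤ d` (if `κ(W) = ν(W)`, by Gongyo–Lehmann).

Remark (not part of the Lean statement). The results are sharp: let `V` be the double covering
`w ^ 2 = f(x_0 ^ r, x_1, …, x_n)` of `Y = ℙⁿ`, of degree `4 r`, and `W` the quotient by the group of the
`r`-th roots of unity; then `K_V = (2 r - n - 1) H`. For `r = n + 1` one has `m = r` and `κ(W) = n - 1`,
and for `r = n` one has `m = r - 1` and `κ(W) = 0`.

Proof: the traces on `W` of the forms `A(x) ω`, where `A` is a polynomial of degree `m`, are canonical
forms. If a vector field on `W` respects their ratios and moves the conjugates `x_1, …, x_s` of the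
generic point of `Y` over `W`, then the points `x_i` with their tangent vectors satisfy a
Cayley–Bacharach condition for the forms of degree `m`, and since `2 s ≤ 2 m`, they and the tangent
vectors are on one line. This line is constant along all such vector fields, hence it is algebraic over
the field of the ratios; the transcendence degree of this field is at least `d - 1`, since `Y` is
covered by these lines (`Pool/Agent/H614/MM`).

The function-field language of the starting repository is used: `K` is the function field of `V`, and
`L`, a subfield of `K`, the function field of `W`. A canonical form (`IsPluri 1`) on a variety of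
dimension `n` is a function of `n` rational vector fields; it is regular at the prime divisor `P`
(`Place`, `Divisorial`, `RegAt`) if its value on vector fields which are regular at `P` is regular
at `P`. `KodGe ℂ L n (fun _ => False) e` says that `κ(W) ≥ e`, `Psef ℂ L n (fun _ => False)` that `K_W` is
pseudo-effective (`Pool/Agent/W602/GT`), `NumLe ℂ L n (fun _ => False) e` that `ν(W) ≤ e` and
`IsUniruled ℂ L n` that `W` is uniruled (`Pool/Agent/W619`).
-/

set_option autoImplicit false
set_option linter.overlappingInstances false

open FF Pool.Agent.W602.GT
open Pool.Agent.W619.PQ (IsUniruled)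
open Pool.Agent.W619.TW (NumLe)

namespace Pool.Agent.Results.MP_fa3f7f_ag.ImagesOfDegreeAtMostM

section

variable {K : Type} [Field K] [Algebra ℂ K] {n N : ℕ}

/-- `K` is the function field of a variety `V` of dimension `n`, and `x` is the generic point of a
variety `Y` of dimension `d` in projective space with `N` homogeneous coordinates (one of them is
normalised to `1`), the image of `V` under a rational map; the function field of `Y` is `ℂ(x)`. -/
structure IsMap (n d : ℕ) (x : Fin N → K) : Prop where
  ess : Algebra.EssFiniteType ℂ K
  dim : Algebra.trdeg ℂ K = n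
  one : ∃ j, x j = 1
  image : Algebra.trdeg ℂ (IntermediateField.adjoin ℂ (Set.range x)) = d

/-- `ω` is a section of `K_V - m H`, where `H` is the pull-back of the hyperplane class of `Y`: a
canonical form on `V` such that the products `A(x) ω` are regular at all prime divisors, for all
monomials (hence for all forms) `A` of degree `m`. -/
def IsSection (m : ℕ) (x : Fin N → K) (ω : (Fin n → Derivation ℂ K K) → K) : Prop :=
  IsPluri 1 ω ∧ ∀ (f : Fin m → Fin N) (P : Place ℂ K), Divisorial n P →
    RegAt P (fun D => (∏ k, x (f k)) * ω D)

/-- The trace of the form `ω` to the variety with the function field `F` is not zero. The value of the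
trace of `ω` on vector fields `D i` of `F` is the trace of the value of `ω` on the extensions `D' i` of
the `D i` to `K`. -/
def TraceNe (ω : (Fin n → Derivation ℂ K K) → K) (F : IntermediateField ℂ K) : Prop :=
  ∃ (D : Fin n → Derivation ℂ F F) (D' : Fin n → Derivation ℂ K K),
    (∀ i f, D' i (algebraMap F K f) = algebraMap F K (D i f)) ∧
    Algebra.trace F K (ω D') ≠ 0

/-- `Y` is covered by lines: for some variety `B`, with function field `M`, there is a family over `B`
of lines in projective space, the lines through the points `a` and `b` over `M`, such that the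
generic point `a + T b` of the total space of the family is mapped to the generic point `x` of `Y`,
that is, exactly the equations of `Y` vanish at `a + T b`. -/
def CoveredByLines (x : Fin N → K) : Prop :=
  ∃ (M : Type) (_ : Field M) (_ : Algebra ℂ M) (a b : Fin N → M),
    Algebra.EssFiniteType ℂ M ∧ LinearIndependent M ![a, b] ∧
    ∀ F : MvPolynomial (Fin N) ℂ, MvPolynomial.aeval x F = 0 ↔
      MvPolynomial.aeval (fun j => Polynomial.C (a j) + Polynomial.X * Polynomial.C (b j)) F = 0

/-- For all fields `F` with `ℂ(x) < F ≤ K` there is a section of `K_V - m H` with nonzero trace to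
`F`, for some `m` with `r ≤ [K : F] m`. -/
def Positive (n : ℕ) (x : Fin N → K) (r : ℕ) : Prop :=
  ∀ F : IntermediateField ℂ K, IntermediateField.adjoin ℂ (Set.range x) < F →
    ∃ m : ℕ, r ≤ Module.finrank F K * m ∧
      ∃ ω : (Fin n → Derivation ℂ K K) → K, IsSection m x ω ∧ TraceNe ω F

/-- The map `V ⇢ W` factors through `V ⇢ Y`: all elements of the function field `L` of `W` are
rational functions of `x`. -/
def FactorsThrough (L : Type) [Field L] [Algebra L K] (x : Fin N → K) : Prop :=
  ∀ f : L, algebraMap L K f ∈ IntermediateField.adjoin ℂ (Set.range x)

end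

/-- **Images of small degree.** Let `V ⇢ Y` be a rational map from a variety of dimension `n` onto a
variety of dimension `d`, with generic point `x`, and `V ⇢ W` a dominant rational map of finite degree
`r = [K : L]`.
(1) If some section of `K_V - m H` has nonzero trace to `L(x)`, and `[L(x) : L] ≤ m`, then
`κ(W) ≥ d - 1`; if `Y` is not covered by lines, or `2 [L(x) : L] ≤ m + 1`, then `κ(W) ≥ d`, and
`ν(W) ≤ d` if `ν(V) ≤ d`.
(2) If `V ⇢ Y` is generically finite and `Positive` holds for `r`, then `V ⇢ W` factors through
`V ⇢ Y`, or `κ(W) ≥ n - 1`, and `κ(W) = n` if `Y` is not covered by lines; if moreover `Y` is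
uniruled, then `κ(W) < n - 1` if and only if `κ(W) = -∞`, if and only if `K_W` is not pseudo-effective,
if and only if `W` is uniruled, if and only if `V ⇢ W` factors through `V ⇢ Y`.
(3) `Positive` holds for `r` if the degree of `V ⇢ Y` is a prime number and some section of
`K_V - m H` is not zero, for some `m ≥ r`. -/
theorem result {n d N : ℕ} {K : Type} [Field K] [Algebra ℂ K] {x : Fin N → K} (hx : IsMap n d x)
    (L : Type) [Field L] [Algebra ℂ L] [Algebra L K] [IsScalarTower ℂ L K]
    [FiniteDimensional L K] :
    (∀ (m : ℕ) (ω : (Fin n → Derivation ℂ K K) → K), IsSection m x ω →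
      TraceNe ω ((IntermediateField.adjoin L (Set.range x)).restrictScalars ℂ) →
      Module.finrank L (IntermediateField.adjoin L (Set.range x)) ≤ m →
      KodGe ℂ L n (fun _ => False) (d - 1) ∧
      (¬ CoveredByLines x ∨
          2 * Module.finrank L (IntermediateField.adjoin L (Set.range x)) ≤ m + 1 →
        KodGe ℂ L n (fun _ => False) d ∧
        (NumLe ℂ K n (fun _ => False) d → NumLe ℂ L n (fun _ => False) d))) ∧
    (FiniteDimensional (IntermediateField.adjoin ℂ (Set.range x)) K →
      Positive n x (Module.finrank L K) →
      (¬ FactorsThrough L x → KodGe ℂ L n (fun _ => False) (n - 1) ∧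
        (¬ CoveredByLines x → KodGe ℂ L n (fun _ => False) n)) ∧
      (IsUniruled ℂ (IntermediateField.adjoin ℂ (Set.range x)) n →
        [¬ KodGe ℂ L n (fun _ => False) (n - 1), ¬ KodGe ℂ L n (fun _ => False) 0,
          ¬ Psef ℂ L n (fun _ => False), IsUniruled ℂ L n, FactorsThrough L x].TFAE)) ∧
    (FiniteDimensional (IntermediateField.adjoin ℂ (Set.range x)) K →
      (Module.finrank (IntermediateField.adjoin ℂ (Set.range x)) K).Prime →
      ∀ (m : ℕ) (ω : (Fin n → Derivation ℂ K K) → K), IsSection m x ω → (∃ D, ω D ≠ 0) →
      ∀ r ≤ m, Positive n x r) := by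
  have hess : Algebra.EssFiniteType ℂ K := hx.ess
  refine ⟨fun m ω hω htr hdeg => ?_, fun hfin hp => ?_, fun hfin hprime m ω hω hne r hr => ?_⟩
  · have h1 := Pool.Agent.H614.MM.main1 (L := L) hx.dim hx.one hx.image (ω := ω) hω htr hdeg
    exact ⟨h1.1, fun h => ⟨h1.2 h, fun h2 => Pool.Agent.R882.LT.numLe_down hx.dim h2⟩⟩
  · have hb : Pool.Agent.R882.Over.IsBase n x := ⟨hx.ess, hx.dim, hx.one, hfin⟩
    exact ⟨fun hnf => Pool.Agent.H614.MM.main2 (L := L) hb hp hnf,
      fun hY => Pool.Agent.H614.MM.main3 (L := L) hb hY hp⟩
  · have hb : Pool.Agent.R882.Over.IsBase n x := ⟨hx.ess, hx.dim, hx.one, hfin⟩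
    exact Pool.Agent.H614.MM.pos_prime hb hprime hω hne hr

end Pool.Agent.Results.MP_fa3f7f_ag.ImagesOfDegreeAtMostM
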